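import Pool.Agent.Lib.MP_551055_al.LS.K1a
import Pool.Agent.Lib.MP_551055_al.LS.K1c
import Pool.Agent.Lib.MP_551055_al.LS.K1d
import Pool.Agent.Lib.MP_551055_al.LS.K1e
import Pool.Agent.Lib.MP_551055_al.LS.Dev
import Pool.Agent.Lib.MP_551055_al.LS.PExt
import Pool.Agent.Lib.MP_551055_al.LS.PSes

/-!
# The class of nilpotent maps on perfect modules

A class `K` of isomorphisms between finitely generated free modules is extended to nilpotent
endomorphisms `ν` of modules with finite resolutions: `NG K Y ν` means that the class of `1 + ν` is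
zero. The class has the two out of three property for short exact sequences.
-/

set_option autoImplicit false

namespace Pool.Agent.Lib.MP_551055_al.LD

open Pool.Agent.Lib.MP_551055_al
open Pool.Agent.Lib.MP_551055_al.LS

universe u

variable {S : Type u} [Ring S]

/-- A short exact sequence of modules with endomorphisms. -/
structure Ses {A B C : Type u} [AddCommGroup A] [Module S A] [AddCommGroup B] [Module S B]
    [AddCommGroup C] [Module S C] (i : A →ₗ[S] B) (q : B →ₗ[S] C) (a : A →ₗ[S] A)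
    (b : B →ₗ[S] B) (c : C →ₗ[S] C) : Prop where
  inj : Function.Injective i
  surj : Function.Surjective q
  exact : ∀ y, q y = 0 ↔ ∃ x, i x = y
  hi : ∀ x, i (a x) = b (i x)
  hq : ∀ y, q (b y) = c (q y)

/-- The class for nilpotent endomorphisms of finitely generated projective modules. -/
def NG0 (K : K1C S) (P : Type u) [AddCommGroup P] [Module S P] (ν : P →ₗ[S] P) : Prop :=
  Module.Finite S P ∧ Module.Projective S P ∧ (∃ k : ℕ, ∀ y, (ν ^ k) y = 0) ∧
    K.GA (LinearMap.id + ν)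

/-- The class for nilpotent endomorphisms of modules with a resolution of length `d`. -/
def NGn (K : K1C S) : ℕ → ∀ (Y : Type u) [AddCommGroup Y] [Module S Y], (Y →ₗ[S] Y) → Prop
  | 0, Y, _, _, ν => NG0 K Y ν
  | d + 1, Y, _, _, ν => ∃ (Z P : Type u) (_ : AddCommGroup Z) (_ : Module S Z)
      (_ : AddCommGroup P) (_ : Module S P) (ζ : Z →ₗ[S] Z) (μ : P →ₗ[S] P) (i : Z →ₗ[S] P)
      (q : P →ₗ[S] Y), Ses i q ζ μ ν ∧ NG0 K P μ ∧ NGn K d Z ζ

/-- The class for nilpotent endomorphisms of modules with finite resolutions. -/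
def NG (K : K1C S) (Y : Type u) [AddCommGroup Y] [Module S Y] (ν : Y →ₗ[S] Y) : Prop :=
  ∃ d, NGn K d Y ν

section Basic

variable {A B C : Type u} [AddCommGroup A] [Module S A] [AddCommGroup B] [Module S B]
    [AddCommGroup C] [Module S C] {i : A →ₗ[S] B} {q : B →ₗ[S] C} {a : A →ₗ[S] A}
    {b : B →ₗ[S] B} {c : C →ₗ[S] C}

theorem Ses.ex (h : Ses i q a b c) : LinearMap.range i = LinearMap.ker q := by
  ext y
  rw [LinearMap.mem_range, LinearMap.mem_ker, h.exact]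

theorem Ses.comp_zero (h : Ses i q a b c) (x : A) : q (i x) = 0 := (h.exact _).2 ⟨x, rfl⟩

theorem Ses.i_pow (h : Ses i q a b c) (k : ℕ) (x : A) : i ((a ^ k) x) = (b ^ k) (i x) := by
  induction k with
  | zero => rfl
  | succ k ih =>
    rw [pow_succ', pow_succ', Module.End.mul_apply, Module.End.mul_apply, h.hi, ih]

theorem Ses.q_pow (h : Ses i q a b c) (k : ℕ) (y : B) : q ((b ^ k) y) = (c ^ k) (q y) := by
  induction k with
  | zero => rfl
  | succ k ih =>
    rw [pow_succ', pow_succ', Module.End.mul_apply, Module.End.mul_apply, h.hq, ih]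

theorem Ses.nil_mid (h : Ses i q a b c) (ha : ∃ k : ℕ, ∀ y, (a ^ k) y = 0)
    (hc : ∃ k : ℕ, ∀ y, (c ^ k) y = 0) : ∃ k : ℕ, ∀ y, (b ^ k) y = 0 := by
  obtain ⟨k, hk⟩ := ha
  obtain ⟨l, hl⟩ := hc
  refine ⟨k + l, fun y => ?_⟩
  have h1 : q ((b ^ l) y) = 0 := by rw [h.q_pow, hl]
  obtain ⟨x, hx⟩ := (h.exact _).1 h1
  rw [pow_add, Module.End.mul_apply, ← hx, ← h.i_pow, hk, map_zero]

theorem Ses.nil_left (h : Ses i q a b c) (hb : ∃ k : ℕ, ∀ y, (b ^ k) y = 0) :
    ∃ k : ℕ, ∀ y, (a ^ k) y = 0 := by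
  obtain ⟨k, hk⟩ := hb
  exact ⟨k, fun y => h.inj (by rw [h.i_pow, hk, map_zero])⟩

theorem Ses.nil_right (h : Ses i q a b c) (hb : ∃ k : ℕ, ∀ y, (b ^ k) y = 0) :
    ∃ k : ℕ, ∀ y, (c ^ k) y = 0 := by
  obtain ⟨k, hk⟩ := hb
  refine ⟨k, fun y => ?_⟩
  obtain ⟨x, rfl⟩ := h.surj y
  rw [← h.q_pow, hk, map_zero]

theorem Ses.ga (h : Ses i q a b c) (K : K1C S) (h1 : Module.Finite S B)
    (h2 : Module.Projective S B) (h3 : Module.Projective S C) :
    (K.GA (LinearMap.id + a) → K.GA (LinearMap.id + c) → K.GA (LinearMap.id + b)) ∧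
    (K.GA (LinearMap.id + a) → K.GA (LinearMap.id + b) → K.GA (LinearMap.id + c)) ∧
    (K.GA (LinearMap.id + c) → K.GA (LinearMap.id + b) → K.GA (LinearMap.id + a)) := by
  refine stSES stConj (stGAInd stConj) S K A B C i q _ _ _ h1 h2 h3 h.inj h.surj h.ex ?_ ?_
  · ext1 x
    change i (x + a x) = i x + b (i x)
    rw [map_add, h.hi]
  · ext1 y
    change q (y + b y) = q y + c (q y)
    rw [map_add, h.hq]

/-- The extension of two projective modules. -/
theorem Ses.proj_mid (h : Ses i q a b c) (hA : Module.Finite S A ∧ Module.Projective S A)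
    (hC : Module.Finite S C ∧ Module.Projective S C) :
    Module.Finite S B ∧ Module.Projective S B :=
  stPExt S 0 A B C i q h.inj h.surj h.ex hA hC

theorem Ses.proj_left (h : Ses i q a b c) (hB : Module.Finite S B ∧ Module.Projective S B)
    (hC : Module.Projective S C) : Module.Finite S A ∧ Module.Projective S A := by
  have h1 := hB.1
  have h2 := hB.2
  have h3 := Dev.ker_proj q h.surj
  have e : A ≃ₗ[S] LinearMap.ker q :=
    (LinearEquiv.ofInjective i h.inj).trans (LinearEquiv.ofEq _ _ h.ex)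
  exact FFR.congr (d := 0) e.symm h3

theorem NG0.mid (K : K1C S) (h : Ses i q a b c) (hA : NG0 K A a) (hC : NG0 K C c) :
    NG0 K B b := by
  have h1 := h.proj_mid ⟨hA.1, hA.2.1⟩ ⟨hC.1, hC.2.1⟩
  exact ⟨h1.1, h1.2, h.nil_mid hA.2.2.1 hC.2.2.1,
    (h.ga K h1.1 h1.2 hC.2.1).1 hA.2.2.2 hC.2.2.2⟩

theorem NG0.left (K : K1C S) (h : Ses i q a b c) (hB : NG0 K B b) (hC : NG0 K C c) :
    NG0 K A a := by
  have h1 := h.proj_left ⟨hB.1, hB.2.1⟩ hC.2.1
  exact ⟨h1.1, h1.2, h.nil_left hB.2.2.1,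
    (h.ga K hB.1 hB.2.1 hC.2.1).2.2 hC.2.2.2 hB.2.2.2⟩

theorem NG0.right (K : K1C S) (h : Ses i q a b c) (hA : NG0 K A a) (hB : NG0 K B b)
    (hC : Module.Projective S C) : NG0 K C c := by
  have h1 := hB.1
  exact ⟨Module.Finite.of_surjective q h.surj, hC, h.nil_right hB.2.2.1,
    (h.ga K hB.1 hB.2.1 hC).2.1 hA.2.2.2 hB.2.2.2⟩

theorem NG0.of_subsingleton (K : K1C S) [Subsingleton A] (a : A →ₗ[S] A) : NG0 K A a := by
  have h0 := FFR.of_subsingleton (R := S) 0 (M := A)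
  exact ⟨h0.1, h0.2, ⟨0, fun y => Subsingleton.elim _ _⟩, Dev.ga_of_subsingleton K A _⟩

/-- An isomorphism as a short exact sequence. -/
theorem Ses.of_equiv (e : B ≃ₗ[S] C) (b : B →ₗ[S] B) (c : C →ₗ[S] C)
    (h : ∀ y, e (b y) = c (e y)) :
    Ses (0 : PUnit.{u + 1} →ₗ[S] B) e.toLinearMap 0 b c where
  inj := Function.injective_of_subsingleton _
  surj := e.surjective
  exact y := by
    constructor
    · intro hy
      refine ⟨0, ?_⟩
      rw [map_zero]
      exact (e.map_eq_zero_iff.1 hy).symm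
    · rintro ⟨x, rfl⟩
      change e 0 = 0
      exact map_zero e
  hi x := by
    change (0 : B) = b 0
    rw [map_zero]
  hq := h

theorem NG0.congr (K : K1C S) (e : B ≃ₗ[S] C) (h : ∀ y, e (b y) = c (e y)) (hB : NG0 K B b) :
    NG0 K C c := by
  have h1 := hB.2.1
  exact NG0.right K (Ses.of_equiv e b c h) (NG0.of_subsingleton K 0) hB
    (Module.Projective.of_equiv e)

theorem NGn.congr (K : K1C S) {d : ℕ} (e : B ≃ₗ[S] C) (h : ∀ y, e (b y) = c (e y))
    (hB : NGn K d B b) : NGn K d C c := by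
  cases d with
  | zero => exact NG0.congr K e h hB
  | succ d =>
    obtain ⟨Z, P, i1, i2, i3, i4, ζ, μ, i, q, h1, h2, h3⟩ := hB
    refine ⟨Z, P, i1, i2, i3, i4, ζ, μ, i, e.toLinearMap ∘ₗ q, ⟨h1.inj, e.surjective.comp h1.surj,
      fun y => ?_, h1.hi, fun y => ?_⟩, h2, h3⟩
    · rw [← h1.exact]
      exact e.map_eq_zero_iff
    · change e (q (μ y)) = c (e (q y))
      rw [h1.hq, h]

theorem NGn.succ (K : K1C S) {d : ℕ} : ∀ {A : Type u} [AddCommGroup A] [Module S A]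
    {a : A →ₗ[S] A}, NGn K d A a → NGn K (d + 1) A a := by
  induction d with
  | zero =>
    intro A _ _ a h
    exact ⟨PUnit.{u + 1}, A, inferInstance, inferInstance, inferInstance, inferInstance, 0, a, 0,
      (LinearEquiv.refl S A).toLinearMap, Ses.of_equiv (LinearEquiv.refl S A) a a fun _ => rfl, h,
      NG0.of_subsingleton K 0⟩
  | succ d ih =>
    intro A _ _ a h
    obtain ⟨Z, P, i1, i2, i3, i4, ζ, μ, i, q, h1, h2, h3⟩ := h
    exact ⟨Z, P, i1, i2, i3, i4, ζ, μ, i, q, h1, h2, ih h3⟩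

theorem NGn.mono (K : K1C S) {d d' : ℕ} (hd : d ≤ d') (h : NGn K d A a) : NGn K d' A a := by
  induction hd with
  | refl => exact h
  | step _ ih => exact NGn.succ K ih

theorem NGn.nil (K : K1C S) {d : ℕ} (h : NGn K d A a) : ∃ k : ℕ, ∀ y, (a ^ k) y = 0 := by
  cases d with
  | zero => exact h.2.2.1
  | succ d =>
    obtain ⟨Z, P, i1, i2, i3, i4, ζ, μ, i, q, h1, h2, h3⟩ := h
    exact h1.nil_right h2.2.2.1

theorem NGn.finite (K : K1C S) {d : ℕ} (h : NGn K d A a) : Module.Finite S A := by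
  cases d with
  | zero => exact h.1
  | succ d =>
    obtain ⟨Z, P, i1, i2, i3, i4, ζ, μ, i, q, h1, h2, h3⟩ := h
    have := h2.1
    exact Module.Finite.of_surjective q h1.surj

end Basic

/-! ## Constructions -/

section Constr

variable {A B C P Z R Z' P' : Type u} [AddCommGroup A] [Module S A] [AddCommGroup B] [Module S B]
    [AddCommGroup C] [Module S C] [AddCommGroup P] [Module S P] [AddCommGroup Z] [Module S Z]
    [AddCommGroup R] [Module S R] [AddCommGroup Z'] [Module S Z'] [AddCommGroup P'] [Module S P']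

/-- The kernel of a surjection. -/
theorem Ses.of_ker (q : B →ₗ[S] C) (b : B →ₗ[S] B) (c : C →ₗ[S] C)
    (hs : Function.Surjective q) (hq : ∀ y, q (b y) = c (q y))
    (hk : ∀ y ∈ LinearMap.ker q, b y ∈ LinearMap.ker q) :
    Ses (LinearMap.ker q).subtype q (b.restrict hk) b c where
  inj := (LinearMap.ker q).injective_subtype
  surj := hs
  exact y := ⟨fun h => ⟨⟨y, h⟩, rfl⟩, fun ⟨x, hx⟩ => by rw [← hx]; exact x.2⟩
  hi _ := rfl
  hq := hq

/-- Two resolutions of the same module. -/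
theorem Ses.pull {X : Type u} [AddCommGroup X] [Module S X] {i : Z →ₗ[S] P} {q : P →ₗ[S] X}
    {ζ : Z →ₗ[S] Z} {μ : P →ₗ[S] P} {ν : X →ₗ[S] X} {i' : Z' →ₗ[S] P'} {q' : P' →ₗ[S] X}
    {ζ' : Z' →ₗ[S] Z'} {μ' : P' →ₗ[S] P'} (h : Ses i q ζ μ ν) (h' : Ses i' q' ζ' μ' ν) :
    ∃ (Q : Type u) (_ : AddCommGroup Q) (_ : Module S Q) (ω : Q →ₗ[S] Q) (j : Z' →ₗ[S] Q)
      (r : Q →ₗ[S] P) (j' : Z →ₗ[S] Q) (r' : Q →ₗ[S] P'), Ses j r ζ' ω μ ∧ Ses j' r' ζ ω μ' := by
  let φ : (P × P') →ₗ[S] X := q ∘ₗ LinearMap.fst S P P' - q' ∘ₗ LinearMap.snd S P P'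
  have hφ : ∀ y : P × P', y ∈ LinearMap.ker φ ↔ q y.1 = q' y.2 := fun y => by
    rw [LinearMap.mem_ker]
    exact sub_eq_zero
  have hω : ∀ y ∈ LinearMap.ker φ, (μ.prodMap μ') y ∈ LinearMap.ker φ := fun y hy => by
    rw [hφ] at hy ⊢
    change q (μ y.1) = q' (μ' y.2)
    rw [h.hq, h'.hq, hy]
  refine ⟨LinearMap.ker φ, inferInstance, inferInstance, (μ.prodMap μ').restrict hω,
    LinearMap.codRestrict _ (LinearMap.inr S P P' ∘ₗ i') fun z => ?_,
    LinearMap.fst S P P' ∘ₗ (LinearMap.ker φ).subtype,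
    LinearMap.codRestrict _ (LinearMap.inl S P P' ∘ₗ i) fun z => ?_,
    LinearMap.snd S P P' ∘ₗ (LinearMap.ker φ).subtype, ?_, ?_⟩
  · rw [hφ]
    change q 0 = q' (i' z)
    rw [map_zero, h'.comp_zero]
  · rw [hφ]
    change q (i z) = q' 0
    rw [map_zero, h.comp_zero]
  · refine ⟨fun x y hxy => ?_, fun p => ?_, fun y => ⟨fun hy => ?_, ?_⟩, fun x => ?_, fun y => rfl⟩
    · exact h'.inj (congrArg (fun z : LinearMap.ker φ => (z : P × P').2) hxy)
    · obtain ⟨p', hp'⟩ := h'.surj (q p)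
      exact ⟨⟨(p, p'), (hφ _).2 hp'.symm⟩, rfl⟩
    · have h1 : (y : P × P').1 = 0 := hy
      have h2 := (hφ _).1 y.2
      rw [h1, map_zero] at h2
      obtain ⟨z, hz⟩ := (h'.exact _).1 h2.symm
      exact ⟨z, Subtype.ext (Prod.ext h1.symm hz)⟩
    · rintro ⟨x, rfl⟩
      rfl
    · refine Subtype.ext (Prod.ext ?_ (h'.hi x))
      change (0 : P) = μ 0
      rw [map_zero]
  · refine ⟨fun x y hxy => ?_, fun p => ?_, fun y => ⟨fun hy => ?_, ?_⟩, fun x => ?_, fun y => rfl⟩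
    · exact h.inj (congrArg (fun z : LinearMap.ker φ => (z : P × P').1) hxy)
    · obtain ⟨p', hp'⟩ := h.surj (q' p)
      exact ⟨⟨(p', p), (hφ _).2 hp'⟩, rfl⟩
    · have h1 : (y : P × P').2 = 0 := hy
      have h2 := (hφ _).1 y.2
      rw [h1, map_zero] at h2
      obtain ⟨z, hz⟩ := (h.exact _).1 h2
      exact ⟨z, Subtype.ext (Prod.ext hz h1.symm)⟩
    · rintro ⟨x, rfl⟩
      rfl
    · refine Subtype.ext (Prod.ext (h.hi x) ?_)
      change (0 : P') = μ' 0
      rw [map_zero]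

/-- The kernel of a composition. -/
theorem Ses.comp {i : A →ₗ[S] B} {q : B →ₗ[S] C} {a : A →ₗ[S] A} {b : B →ₗ[S] B} {c : C →ₗ[S] C}
    {j : Z →ₗ[S] P} {r : P →ₗ[S] B} {ζ : Z →ₗ[S] Z} {μ : P →ₗ[S] P} (h : Ses i q a b c)
    (h' : Ses j r ζ μ b) :
    ∃ (L : Type u) (_ : AddCommGroup L) (_ : Module S L) (l : L →ₗ[S] L) (j' : Z →ₗ[S] L)
      (r' : L →ₗ[S] A) (s : L →ₗ[S] P) (t : P →ₗ[S] C), Ses j' r' ζ l a ∧ Ses s t l μ c := by
  have hk : ∀ y ∈ LinearMap.ker (q ∘ₗ r), μ y ∈ LinearMap.ker (q ∘ₗ r) := fun y hy => by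
    rw [LinearMap.mem_ker, LinearMap.comp_apply] at hy ⊢
    rw [h'.hq, h.hq, hy, map_zero]
  have hmem : ∀ y : LinearMap.ker (q ∘ₗ r), (r ∘ₗ (LinearMap.ker (q ∘ₗ r)).subtype) y
      ∈ LinearMap.range i := fun y => by
    rw [h.ex]
    exact y.2
  let e : A ≃ₗ[S] LinearMap.range i := LinearEquiv.ofInjective i h.inj
  let r' : LinearMap.ker (q ∘ₗ r) →ₗ[S] A :=
    e.symm.toLinearMap ∘ₗ LinearMap.codRestrict (LinearMap.range i)
      (r ∘ₗ (LinearMap.ker (q ∘ₗ r)).subtype) hmem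
  have hr : ∀ y, i (r' y) = r (y : P) := fun y => by
    have h1 : e (r' y) = LinearMap.codRestrict (LinearMap.range i)
        (r ∘ₗ (LinearMap.ker (q ∘ₗ r)).subtype) hmem y := LinearEquiv.apply_symm_apply e _
    exact congrArg Subtype.val h1
  refine ⟨LinearMap.ker (q ∘ₗ r), inferInstance, inferInstance, μ.restrict hk,
    LinearMap.codRestrict _ j fun z => ?_, r', (LinearMap.ker (q ∘ₗ r)).subtype, q ∘ₗ r, ?_,
    Ses.of_ker (q ∘ₗ r) μ c (h.surj.comp h'.surj) (fun y => ?_) hk⟩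
  · rw [LinearMap.mem_ker, LinearMap.comp_apply, h'.comp_zero, map_zero]
  · refine ⟨fun x y hxy => ?_, fun x => ?_, fun y => ⟨fun hy => ?_, ?_⟩, fun x => ?_,
      fun y => ?_⟩
    · exact h'.inj (congrArg (fun z : LinearMap.ker (q ∘ₗ r) => (z : P)) hxy)
    · obtain ⟨p, hp⟩ := h'.surj (i x)
      refine ⟨⟨p, ?_⟩, h.inj ?_⟩
      · rw [LinearMap.mem_ker, LinearMap.comp_apply, hp, h.comp_zero]
      · rw [hr]
        exact hp
    · have h1 : r (y : P) = 0 := by rw [← hr, hy, map_zero]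
      obtain ⟨z, hz⟩ := (h'.exact _).1 h1
      exact ⟨z, Subtype.ext hz⟩
    · rintro ⟨x, rfl⟩
      exact h.inj ((hr _).trans ((h'.comp_zero x).trans (map_zero i).symm))
    · exact Subtype.ext (h'.hi x)
    · apply h.inj
      rw [hr, h.hi, hr]
      exact h'.hq _
  · change q (r (μ y)) = c (q (r y))
    rw [h'.hq, h.hq]

/-- Direct sums. -/
theorem Ses.prod (μ : P →ₗ[S] P) (ρ : R →ₗ[S] R) :
    Ses (LinearMap.inl S P R) (LinearMap.snd S P R) μ (μ.prodMap ρ) ρ where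
  inj := LinearMap.inl_injective
  surj := LinearMap.snd_surjective
  exact y := ⟨fun hy => ⟨y.1, Prod.ext rfl hy.symm⟩, fun ⟨x, hx⟩ => by rw [← hx]; rfl⟩
  hi x := Prod.ext rfl (map_zero ρ).symm
  hq _ := rfl

/-- The horseshoe lemma. -/
theorem Ses.horse {i : A →ₗ[S] B} {q : B →ₗ[S] C} {a : A →ₗ[S] A} {b : B →ₗ[S] B}
    {c : C →ₗ[S] C} {j : Z →ₗ[S] P} {r : P →ₗ[S] A} {ζ : Z →ₗ[S] Z} {μ : P →ₗ[S] P}
    {j₁ : Z' →ₗ[S] R} {s : R →ₗ[S] B} {ζ' : Z' →ₗ[S] Z'} {ρ : R →ₗ[S] R} (h : Ses i q a b c)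
    (h' : Ses j r ζ μ a) (h'' : Ses j₁ s ζ' ρ b) :
    ∃ (N L : Type u) (_ : AddCommGroup N) (_ : Module S N) (_ : AddCommGroup L) (_ : Module S L)
      (n : N →ₗ[S] N) (l : L →ₗ[S] L) (i₁ : N →ₗ[S] P × R) (q₁ : P × R →ₗ[S] B)
      (i₂ : L →ₗ[S] R) (q₂ : R →ₗ[S] C) (i₃ : Z →ₗ[S] N) (q₃ : N →ₗ[S] L),
      Ses i₁ q₁ n (μ.prodMap ρ) b ∧ Ses i₂ q₂ l ρ c ∧ Ses i₃ q₃ ζ n l := by
  let φ : (P × R) →ₗ[S] B := (i ∘ₗ r).coprod s
  have hφ : ∀ y, φ y = i (r y.1) + s y.2 := fun y => rfl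
  have hφc : ∀ y, φ ((μ.prodMap ρ) y) = b (φ y) := fun y => by
    rw [hφ, hφ]
    change i (r (μ y.1)) + s (ρ y.2) = _
    rw [h'.hq, h.hi, h''.hq, map_add]
  have hk : ∀ y ∈ LinearMap.ker φ, (μ.prodMap ρ) y ∈ LinearMap.ker φ := fun y hy => by
    rw [LinearMap.mem_ker] at hy ⊢
    rw [hφc, hy, map_zero]
  have hk2 : ∀ y ∈ LinearMap.ker (q ∘ₗ s), ρ y ∈ LinearMap.ker (q ∘ₗ s) := fun y hy => by
    rw [LinearMap.mem_ker, LinearMap.comp_apply] at hy ⊢
    rw [h''.hq, h.hq, hy, map_zero]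
  have hNL : ∀ y : LinearMap.ker φ, (LinearMap.snd S P R ∘ₗ (LinearMap.ker φ).subtype) y ∈
      LinearMap.ker (q ∘ₗ s) := fun y => by
    have h1 : i (r (y : P × R).1) + s (y : P × R).2 = 0 := y.2
    have h2 := congrArg q h1
    rw [map_add, h.comp_zero, zero_add, map_zero] at h2
    exact h2
  refine ⟨LinearMap.ker φ, LinearMap.ker (q ∘ₗ s), inferInstance, inferInstance, inferInstance,
    inferInstance, (μ.prodMap ρ).restrict hk, ρ.restrict hk2, (LinearMap.ker φ).subtype, φ,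
    (LinearMap.ker (q ∘ₗ s)).subtype, q ∘ₗ s,
    LinearMap.codRestrict _ (LinearMap.inl S P R ∘ₗ j) fun z => ?_,
    LinearMap.codRestrict _ (LinearMap.snd S P R ∘ₗ (LinearMap.ker φ).subtype) hNL,
    Ses.of_ker φ _ b (fun y => ?_) hφc hk,
    Ses.of_ker (q ∘ₗ s) ρ c (h.surj.comp h''.surj) (fun y => ?_) hk2, ?_⟩
  · change i (r (j z)) + s 0 = 0
    rw [h'.comp_zero, map_zero, map_zero, add_zero]
  · obtain ⟨x, hx⟩ := h''.surj y
    refine ⟨(0, x), ?_⟩
    rw [hφ, map_zero, map_zero, zero_add, hx]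
  · change q (s (ρ y)) = c (q (s y))
    rw [h''.hq, h.hq]
  · refine ⟨fun x y hxy => ?_, fun x => ?_, fun y => ⟨fun hy => ?_, ?_⟩, fun x => ?_,
      fun y => rfl⟩
    · exact h'.inj (congrArg (fun z : LinearMap.ker φ => (z : P × R).1) hxy)
    · have h1 : q (s (x : R)) = 0 := x.2
      obtain ⟨y, hy⟩ := (h.exact _).1 h1
      obtain ⟨p, hp⟩ := h'.surj y
      refine ⟨⟨(-p, (x : R)), ?_⟩, rfl⟩
      rw [LinearMap.mem_ker, hφ]
      change i (r (-p)) + s (x : R) = 0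
      rw [map_neg, map_neg, hp, hy, neg_add_cancel]
    · have h1 : (y : P × R).2 = 0 := congrArg Subtype.val hy
      have h2 : i (r (y : P × R).1) + s (y : P × R).2 = 0 := y.2
      rw [h1, map_zero, add_zero] at h2
      have h3 : r (y : P × R).1 = 0 := h.inj (by rw [h2, map_zero])
      obtain ⟨z, hz⟩ := (h'.exact _).1 h3
      exact ⟨z, Subtype.ext (Prod.ext hz h1.symm)⟩
    · rintro ⟨x, rfl⟩
      rfl
    · refine Subtype.ext (Prod.ext (h'.hi x) ?_)
      change (0 : R) = ρ 0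
      rw [map_zero]

end Constr

/-! ## Covers -/

section Cover

/-- The shift. -/
noncomputable def shiftE (S : Type u) [Ring S] (m n : ℕ) :
    (Fin (m + 1) × Fin n → S) →ₗ[S] (Fin (m + 1) × Fin n → S) where
  toFun y ti := Fin.cases (motive := fun _ => S) 0 (fun t => y (t.castSucc, ti.2)) ti.1
  map_add' y z := by
    funext ti
    obtain ⟨t, i⟩ := ti
    induction t using Fin.cases with
    | zero => simp
    | succ t => simp
  map_smul' r y := by
    funext ti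
    obtain ⟨t, i⟩ := ti
    induction t using Fin.cases with
    | zero => simp
    | succ t => simp

theorem shiftE_zero (m n : ℕ) (y : Fin (m + 1) × Fin n → S) (i : Fin n) :
    shiftE S m n y (0, i) = 0 := rfl

theorem shiftE_succ (m n : ℕ) (y : Fin (m + 1) × Fin n → S) (t : Fin m) (i : Fin n) :
    shiftE S m n y (t.succ, i) = y (t.castSucc, i) := rfl

theorem shiftE_pow (m n : ℕ) (y : Fin (m + 1) × Fin n → S) (k : ℕ) :
    ∀ (t : Fin (m + 1)) (i : Fin n), (t : ℕ) < k → ((shiftE S m n) ^ k) y (t, i) = 0 := by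
  induction k with
  | zero => intro t i h; exact absurd h (Nat.not_lt_zero _)
  | succ k ih =>
    intro t i h
    rw [pow_succ', Module.End.mul_apply]
    induction t using Fin.cases with
    | zero => rw [shiftE_zero]
    | succ t =>
      rw [shiftE_succ]
      refine ih _ _ ?_
      rw [Fin.val_succ] at h
      rw [Fin.val_castSucc]
      omega

theorem shiftE_ng (K : K1C S) (m n : ℕ) : NG0 K (Fin (m + 1) × Fin n → S) (shiftE S m n) := by
  refine ⟨inferInstance, inferInstance, ⟨m + 1, fun y => ?_⟩, ?_⟩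
  · funext ti
    exact shiftE_pow m n y (m + 1) ti.1 ti.2 ti.1.2
  · rw [stGAFree stConj]
    refine stUnip S K _ (fun ti => m - (ti.1 : ℕ)) _ fun r y hy ti hti => ?_
    obtain ⟨t, i⟩ := ti
    induction t using Fin.cases with
    | zero => rfl
    | succ t =>
      rw [shiftE_succ]
      refine hy _ ?_
      change r ≤ m - (t.succ : ℕ) at hti
      change r + 1 ≤ m - (t.castSucc : ℕ)
      rw [Fin.val_succ] at hti
      rw [Fin.val_castSucc]
      have := t.2
      omega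

/-- Every nilpotent endomorphism of a finitely generated module is a quotient of a shift. -/
theorem exists_cover (K : K1C S) (B : Type u) [AddCommGroup B] [Module S B]
    (h : Module.Finite S B) (b : B →ₗ[S] B) (hb : ∃ k : ℕ, ∀ y, (b ^ k) y = 0) :
    ∃ (Z P : Type u) (_ : AddCommGroup Z) (_ : Module S Z) (_ : AddCommGroup P) (_ : Module S P)
      (ζ : Z →ₗ[S] Z) (μ : P →ₗ[S] P) (i : Z →ₗ[S] P) (q : P →ₗ[S] B), Ses i q ζ μ b ∧
        NG0 K P μ := by
  obtain ⟨m, hm⟩ := hb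
  obtain ⟨n, f, hf⟩ := Module.Finite.exists_fin' S B
  let s : (Fin (m + 1) × Fin n → S) →ₗ[S] B :=
    ∑ t : Fin (m + 1), (b ^ (t : ℕ)) ∘ₗ f ∘ₗ LinearMap.funLeft S S (fun i => (t, i))
  have hs : ∀ y, s y = ∑ t : Fin (m + 1), (b ^ (t : ℕ)) (f fun i => y (t, i)) := fun y => by
    change (∑ t : Fin (m + 1), (b ^ (t : ℕ)) ∘ₗ f ∘ₗ LinearMap.funLeft S S (fun i => (t, i))) y = _
    rw [LinearMap.sum_apply]
    rfl
  have hsb : ∀ y, s (shiftE S m n y) = b (s y) := by
    intro y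
    rw [hs, hs, map_sum, Fin.sum_univ_succ, Fin.sum_univ_castSucc]
    have h0 : (fun i => shiftE S m n y ((0 : Fin (m + 1)), i)) = (0 : Fin n → S) := by
      funext i
      exact shiftE_zero m n y i
    have h1 : b ((b ^ ((Fin.last m : Fin (m + 1)) : ℕ)) (f fun i => y (Fin.last m, i))) = 0 := by
      rw [Fin.val_last, hm, map_zero]
    rw [h0, h1, map_zero, map_zero, zero_add, add_zero]
    refine Finset.sum_congr rfl fun t _ => ?_
    have h2 : (fun i => shiftE S m n y (t.succ, i)) = fun i => y (t.castSucc, i) := by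
      funext i
      exact shiftE_succ m n y t i
    rw [h2, Fin.val_succ, Fin.val_castSucc, pow_succ', Module.End.mul_apply]
  have hss : Function.Surjective s := by
    intro x
    obtain ⟨z, rfl⟩ := hf x
    refine ⟨fun ti => Fin.cases (motive := fun _ => S) (z ti.2) (fun _ => 0) ti.1, ?_⟩
    rw [hs, Fin.sum_univ_succ]
    have h1 : ∀ t : Fin m, (b ^ (t.succ : ℕ)) (f fun i => (0 : S)) = 0 := fun t => by
      change (b ^ (t.succ : ℕ)) (f 0) = 0
      rw [map_zero, map_zero]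
    change f z + ∑ t : Fin m, (b ^ (t.succ : ℕ)) (f fun i => (0 : S)) = f z
    rw [Finset.sum_congr rfl fun t _ => h1 t, Finset.sum_const_zero, add_zero]
  have hk : ∀ y ∈ LinearMap.ker s, shiftE S m n y ∈ LinearMap.ker s := fun y hy => by
    rw [LinearMap.mem_ker] at hy ⊢
    rw [hsb, hy, map_zero]
  exact ⟨LinearMap.ker s, _, inferInstance, inferInstance, inferInstance, inferInstance,
    (shiftE S m n).restrict hk, shiftE S m n, (LinearMap.ker s).subtype, s,
    Ses.of_ker s _ b hss hsb hk, shiftE_ng K m n⟩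

end Cover

/-! ## Two out of three -/

section Main

theorem two_of_three (K : K1C S) (d : ℕ) :
    (∀ {A B C : Type u} [AddCommGroup A] [Module S A] [AddCommGroup B] [Module S B]
      [AddCommGroup C] [Module S C] {i : A →ₗ[S] B} {q : B →ₗ[S] C} {a : A →ₗ[S] A}
      {b : B →ₗ[S] B} {c : C →ₗ[S] C}, Ses i q a b c → NGn K d A a → NGn K d C c →
        NGn K d B b) ∧
    (∀ {A B C : Type u} [AddCommGroup A] [Module S A] [AddCommGroup B] [Module S B]
      [AddCommGroup C] [Module S C] {i : A →ₗ[S] B} {q : B →ₗ[S] C} {a : A →ₗ[S] A}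
      {b : B →ₗ[S] B} {c : C →ₗ[S] C}, Ses i q a b c → NGn K d B b → NGn K d C c →
        NGn K d A a) := by
  induction d with
  | zero =>
    constructor
    · intro A B C _ _ _ _ _ _ i q a b c h hA hC
      exact NG0.mid K h hA hC
    · intro A B C _ _ _ _ _ _ i q a b c h hB hC
      exact NG0.left K h hB hC
  | succ d ih =>
    obtain ⟨ihE, ihK⟩ := ih
    -- the kernels
    have key : ∀ {Z P X : Type u} [AddCommGroup Z] [Module S Z] [AddCommGroup P] [Module S P]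
        [AddCommGroup X] [Module S X] {i : Z →ₗ[S] P} {q : P →ₗ[S] X} {ζ : Z →ₗ[S] Z}
        {μ : P →ₗ[S] P} {ν : X →ₗ[S] X}, Ses i q ζ μ ν → NG0 K P μ → NGn K (d + 1) X ν →
          NGn K d Z ζ := by
      intro Z P X _ _ _ _ _ _ i q ζ μ ν h hP hX
      obtain ⟨Z', P', i1, i2, i3, i4, ζ', μ', i', q', h', hP', hZ'⟩ := hX
      obtain ⟨Q, _, _, ω, j, r, j', r', h1, h2⟩ := h.pull h'
      exact ihK h2 (ihE h1 hZ' (NGn.mono K (Nat.zero_le d) hP))
        (NGn.mono K (Nat.zero_le d) hP')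
    have hE : ∀ {A B C : Type u} [AddCommGroup A] [Module S A] [AddCommGroup B] [Module S B]
        [AddCommGroup C] [Module S C] {i : A →ₗ[S] B} {q : B →ₗ[S] C} {a : A →ₗ[S] A}
        {b : B →ₗ[S] B} {c : C →ₗ[S] C}, Ses i q a b c → NGn K (d + 1) A a → NGn K (d + 1) C c →
          NGn K (d + 1) B b := by
      intro A B C _ _ _ _ _ _ i q a b c h hA hC
      have hfin : Module.Finite S B := by
        have h1 := NGn.finite K hA
        have h2 := NGn.finite K hC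
        refine Module.finite_def.2 (Submodule.fg_of_fg_map_of_fg_inf_ker q ?_ ?_)
        · rw [Submodule.map_top, LinearMap.range_eq_top.2 h.surj]
          exact Module.finite_def.1 h2
        · rw [top_inf_eq, ← h.ex, ← Submodule.map_top]
          exact (Module.finite_def.1 h1).map i
      have hnil := h.nil_mid (NGn.nil K hA) (NGn.nil K hC)
      obtain ⟨Z', R, _, _, _, _, ζ', ρ, j', s, h1, hR⟩ := exists_cover K B hfin b hnil
      obtain ⟨Z, P, _, _, _, _, ζ, μ, j, r, h2, hP, hZ⟩ := hA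
      obtain ⟨N, L, _, _, _, _, n, l, i₁, q₁, i₂, q₂, i₃, q₃, h3, h4, h5⟩ := h.horse h2 h1
      exact ⟨N, P × R, _, _, _, _, n, _, i₁, q₁, h3, NG0.mid K (Ses.prod μ ρ) hP hR,
        ihE h5 hZ (key h4 hR hC)⟩
    refine ⟨hE, ?_⟩
    intro A B C _ _ _ _ _ _ i q a b c h hB hC
    obtain ⟨Z, P, _, _, _, _, ζ, μ, j, r, h2, hP, hZ⟩ := hB
    obtain ⟨L, _, _, l, j', r', s, t, h3, h4⟩ := h.comp h2
    have hL := key h4 hP hC
    -- the cokernel of `Z → L`
    cases d with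
    | zero => exact ⟨Z, L, _, _, _, _, ζ, l, j', r', h3, hL, hZ⟩
    | succ d =>
      obtain ⟨Z₁, P₁, _, _, _, _, ζ₁, μ₁, j₁, r₁, h5, hP₁, hZ₁⟩ := hL
      obtain ⟨M, _, _, m, j₂, r₂, s₂, t₂, h6, h7⟩ := h3.comp h5
      exact ⟨M, P₁, _, _, _, _, m, μ₁, s₂, t₂, h7, hP₁, ihE h6 (NGn.succ K hZ₁) hZ⟩

variable {A B C : Type u} [AddCommGroup A] [Module S A] [AddCommGroup B] [Module S B]
    [AddCommGroup C] [Module S C] {i : A →ₗ[S] B} {q : B →ₗ[S] C} {a : A →ₗ[S] A}
    {b : B →ₗ[S] B} {c : C →ₗ[S] C}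

/-- The class of the middle term. -/
theorem NG.mid (K : K1C S) (h : Ses i q a b c) (hA : NG K A a) (hC : NG K C c) : NG K B b := by
  obtain ⟨d, hd⟩ := hA
  obtain ⟨e, he⟩ := hC
  exact ⟨max d e, (two_of_three K _).1 h (NGn.mono K (le_max_left d e) hd)
    (NGn.mono K (le_max_right d e) he)⟩

/-- The class of the first term. -/
theorem NG.left (K : K1C S) (h : Ses i q a b c) (hB : NG K B b) (hC : NG K C c) : NG K A a := by
  obtain ⟨d, hd⟩ := hB
  obtain ⟨e, he⟩ := hC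
  exact ⟨max d e, (two_of_three K _).2 h (NGn.mono K (le_max_left d e) hd)
    (NGn.mono K (le_max_right d e) he)⟩

/-- The class of the last term. -/
theorem NG.right (K : K1C S) (h : Ses i q a b c) (hA : NG K A a) (hB : NG K B b) :
    NG K C c := by
  obtain ⟨d, hd⟩ := hA
  obtain ⟨e, he⟩ := hB
  obtain ⟨Z₁, P₁, _, _, _, _, ζ₁, μ₁, j₁, r₁, h5, hP₁, hZ₁⟩ := NGn.succ K he
  obtain ⟨M, _, _, m, j₂, r₂, s₂, t₂, h6, h7⟩ := h.comp h5
  obtain ⟨f, hf⟩ := NG.mid K h6 ⟨e, hZ₁⟩ ⟨d, hd⟩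
  exact ⟨f + 1, M, P₁, _, _, _, _, m, μ₁, s₂, t₂, h7, hP₁, hf⟩

theorem NG.congr (K : K1C S) (e : B ≃ₗ[S] C) (h : ∀ y, e (b y) = c (e y)) (hB : NG K B b) :
    NG K C c := by
  obtain ⟨d, hd⟩ := hB
  exact ⟨d, NGn.congr K e h hd⟩

theorem NG.nil (K : K1C S) (h : NG K A a) : ∃ k : ℕ, ∀ y, (a ^ k) y = 0 := by
  obtain ⟨d, hd⟩ := h
  exact NGn.nil K hd

/-- The modules in the class have finite resolutions. -/
theorem NG.ffr (K : K1C S) (h : NG K A a) : ∃ d, FFR S d A := by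
  obtain ⟨d, hd⟩ := h
  induction d generalizing A with
  | zero => exact ⟨0, hd.1, hd.2.1⟩
  | succ d ih =>
    obtain ⟨Z, P, _, _, _, _, ζ, μ, j, r, h1, hP, hZ⟩ := hd
    obtain ⟨e, he⟩ := ih hZ
    have h2 : FFR S 0 P := ⟨hP.1, hP.2.1⟩
    exact ⟨e + 1, stPSes stPExt S e Z P A j r h1.inj h1.surj h1.ex he (h2.mono (Nat.zero_le e))⟩

/-- The class of the zero map is trivial. -/
theorem NG.zero (K : K1C S) {d : ℕ} (h : FFR S d A) : NG K A 0 := by
  refine ⟨d, ?_⟩
  induction d generalizing A with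
  | zero =>
    have h1 := h.1
    have h2 := h.2
    refine ⟨h1, h2, ⟨1, fun y => by rw [pow_one]; rfl⟩, ?_⟩
    rw [add_zero]
    exact Dev.ga_id K A
  | succ d ih =>
    obtain ⟨n, f, hf, hk⟩ := h
    refine ⟨LinearMap.ker f, Fin n → S, _, _, _, _, 0, 0, (LinearMap.ker f).subtype, f,
      ⟨(LinearMap.ker f).injective_subtype, hf, fun y => ⟨fun h => ⟨⟨y, h⟩, rfl⟩, ?_⟩,
        fun x => rfl, fun y => ?_⟩, ⟨inferInstance, inferInstance,
        ⟨1, fun y => by rw [pow_one]; rfl⟩, ?_⟩, ih hk⟩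
    · rintro ⟨x, rfl⟩
      exact x.2
    · change f 0 = 0
      exact map_zero f
    · rw [add_zero]
      exact Dev.ga_id K _

/-- The class of a nilpotent endomorphism of a projective module. -/
theorem NG.ng0 (K : K1C S) (h : NG K A a) (hA : Module.Projective S A) : NG0 K A a := by
  obtain ⟨d, hd⟩ := h
  induction d generalizing A with
  | zero => exact hd
  | succ d ih =>
    obtain ⟨Z, P, _, _, _, _, ζ, μ, j, r, h1, hP, hZ⟩ := hd
    have h2 := (h1.proj_left ⟨hP.1, hP.2.1⟩ hA).2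
    exact NG0.right K h1 (ih h2 hZ) hP hA

theorem NG.ga (K : K1C S) (h : NG K A a) (hA : Module.Projective S A) :
    K.GA (LinearMap.id + a) := (h.ng0 K hA).2.2.2

/-- The class of a nilpotent endomorphism of a free module. -/
theorem NG.g (K : K1C S) {ι : Type} [Finite ι] {ν : (ι → S) →ₗ[S] (ι → S)}
    (h : NG K (ι → S) ν) : K.G (LinearMap.id + ν) :=
  (stGAFree stConj S K ι _).1 (h.ga K inferInstance)

/-- The exact sequence of an invariant submodule. -/
theorem Ses.of_sub (b : B →ₗ[S] B) (N : Submodule S B) (hN : ∀ y ∈ N, b y ∈ N) :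
    Ses N.subtype N.mkQ (b.restrict hN) b (N.mapQ N b hN) where
  inj := N.injective_subtype
  surj := N.mkQ_surjective
  exact y := by
    rw [← LinearMap.mem_ker, Submodule.ker_mkQ]
    exact ⟨fun h => ⟨⟨y, h⟩, rfl⟩, fun ⟨x, hx⟩ => by rw [← hx]; exact x.2⟩
  hi _ := rfl
  hq _ := rfl

/-- Invariant submodules. -/
theorem NG.of_sub (K : K1C S) (b : B →ₗ[S] B) (N : Submodule S B) (hN : ∀ y ∈ N, b y ∈ N)
    (h1 : NG K N (b.restrict hN)) (h2 : NG K (B ⧸ N) (N.mapQ N b hN)) : NG K B b :=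
  NG.mid K (Ses.of_sub b N hN) h1 h2

/-- Devissage: a map which lowers a filtration with perfect graded pieces. -/
theorem NG.fil (K : K1C S) (k : ℕ) : ∀ {B : Type u} [AddCommGroup B] [Module S B]
    (b : B →ₗ[S] B) (Fil : ℕ → Submodule S B), Fil 0 = ⊥ → Fil k = ⊤ → Monotone Fil →
    (∀ i, ∀ y ∈ Fil (i + 1), b y ∈ Fil i) →
    (∀ i < k, ∃ d, FFR S d (Fil (i + 1) ⧸ (Fil i).submoduleOf (Fil (i + 1)))) → NG K B b := by
  induction k with
  | zero =>
    intro B _ _ b Fil h0 h1 _ _ _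
    have : Subsingleton B := by
      rw [h0] at h1
      refine ⟨fun x y => ?_⟩
      have hx : x ∈ (⊥ : Submodule S B) := h1 ▸ Submodule.mem_top
      have hy : y ∈ (⊥ : Submodule S B) := h1 ▸ Submodule.mem_top
      rw [(Submodule.mem_bot S).1 hx, (Submodule.mem_bot S).1 hy]
    exact ⟨0, NG0.of_subsingleton K b⟩
  | succ k ih =>
    intro B _ _ b Fil h0 h1 hmono hb hgr
    have htop : ∀ y, y ∈ Fil (k + 1) := fun y => h1 ▸ Submodule.mem_top
    have hN : ∀ y ∈ Fil k, b y ∈ Fil k := fun y _ => hb k y (htop y)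
    refine NG.of_sub K b (Fil k) hN ?_ ?_
    · refine ih (b.restrict hN) (fun i => (Fil i).submoduleOf (Fil k)) ?_ ?_ ?_ ?_ ?_
      · rw [h0]
        ext y
        exact ⟨fun h => (Submodule.mem_bot S).2 (Subtype.ext ((Submodule.mem_bot S).1 h)),
          fun h => (Submodule.mem_bot S).2 (congrArg Subtype.val ((Submodule.mem_bot S).1 h))⟩
      · ext y
        exact ⟨fun _ => Submodule.mem_top, fun _ => y.2⟩
      · intro i j hij y hy
        exact hmono hij hy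
      · intro i y hy
        exact hb i y hy
      · intro i hi
        obtain ⟨d, hd⟩ := hgr i (hi.trans (Nat.lt_succ_self k))
        exact ⟨d, hd.congr (Dev.subq (Fil i) (Fil (i + 1)) (Fil k) (hmono hi))⟩
    · have h3 : (Fil k).mapQ (Fil k) b hN = 0 := by
        refine LinearMap.ext fun y => ?_
        obtain ⟨x, rfl⟩ := (Fil k).mkQ_surjective y
        change Submodule.Quotient.mk (b x) = 0
        rw [Submodule.Quotient.mk_eq_zero]
        exact hb k x (htop x)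
      rw [h3]
      obtain ⟨d, hd⟩ := hgr k (Nat.lt_succ_self k)
      refine NG.zero K (hd.congr ?_)
      refine Submodule.Quotient.equiv _ _ (LinearEquiv.ofTop (Fil (k + 1)) h1) ?_
      ext y
      constructor
      · rintro ⟨z, hz, rfl⟩
        exact hz
      · intro hy
        exact ⟨⟨y, htop y⟩, hy, rfl⟩

/-- The class of direct sums. -/
theorem NG.prod (K : K1C S) {a : A →ₗ[S] A} {b : B →ₗ[S] B} (hA : NG K A a) (hB : NG K B b) :
    NG K (A × B) (a.prodMap b) :=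
  NG.mid K (Ses.prod a b) hA hB

end Main

end Pool.Agent.Lib.MP_551055_al.LD
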